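import Pool.Agent.helper14.NS.Q150c.CZ_0
import Pool.Agent.helper14.NS.Q150c.CN1_0
import Pool.Agent.helper14.NS.Q150c.CN2_0
import Pool.Agent.helper14.NS.Q150c.CN3_0
import Pool.Agent.helper14.NS.Q150c.CN4_0
import Pool.Agent.helper14.NS.Q150c.CN5_0
import Pool.Agent.helper14.NS.Q150c.CN6_0
import Pool.Agent.helper14.NS.Q150c.CN7_0
import Pool.Agent.helper14.NS.Q150c.CN8_0
import Pool.Agent.helper14.NS.Q150c.CN9_0

/-!
Generated: all certificates of the table.
-/

namespace Pool.Agent.helper14.NS.Q150c

open Pool.Agent.helper31.IA (Z)
open Pool.Agent.helper31.IX (Op XOps runX Cov CovD cov_split covD_split)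
open Pool.Agent.helper31.IC (TD)
open Pool.Agent.helper63.RG (reloc)
open Pool.Agent.helper63.NF hiding TD
open Pool.Agent.helper4.NS
open Pool.Agent.helper14.CF (xE covD_E)
open Pool.Agent.helper14.NR (share)

theorem certZ : CovD 1
    [comp (PS0 tab) ρ4 4]
    [(6414139392, 917504000), (824633720832, 274877906944), (489894707200, 489894707200)] := by
  rw [← gZ_eq]; exact Z_c0

theorem certT : CovD 1
    [comp (PST tab 979789414400) ρ3 3]
    [(6414139392, 917504000), (824633720832, 274877906944)] := by
  rw [← gT_eq]; exact T_c0

theorem certS : CovD 0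
    [PSS tab 10]
    [(6414139392, 917504000), (824633720832, 274877906944)] := by
  rw [← gS_eq]; exact S_c0

theorem certA1 : CovD 1
    [circ (cA tab 1) (PSm tab 1),
     altP (cA tab 1) (oCut tab 1)]
    [(6414139392, 917504000), (824633720832, 274877906944), (4398046511104, 4398046511104)] := by
  rw [← gA1_eq]; exact A1_c0

theorem certB1 : CovD 1
    [circ (cB tab 1) (PSm tab 1),
     altP (cB tab 1) (oCut tab 1)]
    [(6414139392, 917504000), (824633720832, 274877906944), (68719476736, 68719476736)] := by
  rw [← gB1_eq]; exact B1_c0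

theorem certD1 : CovD 1
    [circ (cD tab 1) (PSm tab 1),
     comp (oD tab 1) ρ4 4]
    [(6414139392, 917504000), (824633720832, 274877906944), (863610339328, 863610339328)] := by
  rw [← gD1_eq]; exact D1_c0

theorem certE1 : CovD 1
    [circ (cE tab 1) (PSm tab 1),
     comp (oE tab 1) ρ4 4]
    [(6414139392, 917504000), (824633720832, 274877906944), (863610339328, 863610339328)] := by
  rw [← gE1_eq]; exact E1_c0

theorem certA2 : CovD 1
    [circ (cA tab 2) (PSm tab 2),
     altP (cA tab 2) (oCut tab 2)]
    [(6414139392, 917504000), (824633720832, 274877906944), (4398046511104, 4398046511104)] := by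
  rw [← gA2_eq]; exact A2_c0

theorem certB2 : CovD 1
    [circ (cB tab 2) (PSm tab 2),
     altP (cB tab 2) (oCut tab 2)]
    [(6414139392, 917504000), (824633720832, 274877906944), (68719476736, 68719476736)] := by
  rw [← gB2_eq]; exact B2_c0

theorem certD2 : CovD 1
    [circ (cD tab 2) (PSm tab 2),
     comp (oD tab 2) ρ4 4]
    [(6414139392, 917504000), (824633720832, 274877906944), (863610339328, 863610339328)] := by
  rw [← gD2_eq]; exact D2_c0

theorem certE2 : CovD 1
    [circ (cE tab 2) (PSm tab 2),
     comp (oE tab 2) ρ4 4]
    [(6414139392, 917504000), (824633720832, 274877906944), (863610339328, 863610339328)] := by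
  rw [← gE2_eq]; exact E2_c0

theorem certA3 : CovD 1
    [circ (cA tab 3) (PSm tab 3),
     altP (cA tab 3) (oCut tab 3)]
    [(6414139392, 917504000), (824633720832, 274877906944), (4398046511104, 4398046511104)] := by
  rw [← gA3_eq]; exact A3_c0

theorem certB3 : CovD 1
    [circ (cB tab 3) (PSm tab 3),
     altP (cB tab 3) (oCut tab 3)]
    [(6414139392, 917504000), (824633720832, 274877906944), (68719476736, 68719476736)] := by
  rw [← gB3_eq]; exact B3_c0

theorem certD3 : CovD 1
    [circ (cD tab 3) (PSm tab 3),
     comp (oD tab 3) ρ4 4]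
    [(6414139392, 917504000), (824633720832, 274877906944), (863610339328, 863610339328)] := by
  rw [← gD3_eq]; exact D3_c0

theorem certE3 : CovD 1
    [circ (cE tab 3) (PSm tab 3),
     comp (oE tab 3) ρ4 4]
    [(6414139392, 917504000), (824633720832, 274877906944), (863610339328, 863610339328)] := by
  rw [← gE3_eq]; exact E3_c0

theorem certA4 : CovD 1
    [circ (cA tab 4) (PSm tab 4),
     altP (cA tab 4) (oCut tab 4)]
    [(6414139392, 917504000), (824633720832, 274877906944), (4398046511104, 4398046511104)] := by
  rw [← gA4_eq]; exact A4_c0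

theorem certB4 : CovD 1
    [circ (cB tab 4) (PSm tab 4),
     altP (cB tab 4) (oCut tab 4)]
    [(6414139392, 917504000), (824633720832, 274877906944), (68719476736, 68719476736)] := by
  rw [← gB4_eq]; exact B4_c0

theorem certD4 : CovD 1
    [circ (cD tab 4) (PSm tab 4),
     comp (oD tab 4) ρ4 4]
    [(6414139392, 917504000), (824633720832, 274877906944), (863610339328, 863610339328)] := by
  rw [← gD4_eq]; exact D4_c0

theorem certE4 : CovD 1
    [circ (cE tab 4) (PSm tab 4),
     comp (oE tab 4) ρ4 4]
    [(6414139392, 917504000), (824633720832, 274877906944), (863610339328, 863610339328)] := by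
  rw [← gE4_eq]; exact E4_c0

theorem certA5 : CovD 1
    [circ (cA tab 5) (PSm tab 5),
     altP (cA tab 5) (oCut tab 5)]
    [(6414139392, 917504000), (824633720832, 274877906944), (4398046511104, 4398046511104)] := by
  rw [← gA5_eq]; exact A5_c0

theorem certB5 : CovD 1
    [circ (cB tab 5) (PSm tab 5),
     altP (cB tab 5) (oCut tab 5)]
    [(6414139392, 917504000), (824633720832, 274877906944), (68719476736, 68719476736)] := by
  rw [← gB5_eq]; exact B5_c0

theorem certD5 : CovD 1
    [circ (cD tab 5) (PSm tab 5),
     comp (oD tab 5) ρ4 4]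
    [(6414139392, 917504000), (824633720832, 274877906944), (863610339328, 863610339328)] := by
  rw [← gD5_eq]; exact D5_c0

theorem certE5 : CovD 1
    [circ (cE tab 5) (PSm tab 5),
     comp (oE tab 5) ρ4 4]
    [(6414139392, 917504000), (824633720832, 274877906944), (863610339328, 863610339328)] := by
  rw [← gE5_eq]; exact E5_c0

theorem certA6 : CovD 1
    [circ (cA tab 6) (PSm tab 6),
     altP (cA tab 6) (oCut tab 6)]
    [(6414139392, 917504000), (824633720832, 274877906944), (4398046511104, 4398046511104)] := by
  rw [← gA6_eq]; exact A6_c0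

theorem certB6 : CovD 1
    [circ (cB tab 6) (PSm tab 6),
     altP (cB tab 6) (oCut tab 6)]
    [(6414139392, 917504000), (824633720832, 274877906944), (68719476736, 68719476736)] := by
  rw [← gB6_eq]; exact B6_c0

theorem certD6 : CovD 1
    [circ (cD tab 6) (PSm tab 6),
     comp (oD tab 6) ρ4 4]
    [(6414139392, 917504000), (824633720832, 274877906944), (863610339328, 863610339328)] := by
  rw [← gD6_eq]; exact D6_c0

theorem certE6 : CovD 1
    [circ (cE tab 6) (PSm tab 6),
     comp (oE tab 6) ρ4 4]
    [(6414139392, 917504000), (824633720832, 274877906944), (863610339328, 863610339328)] := by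
  rw [← gE6_eq]; exact E6_c0

theorem certA7 : CovD 1
    [circ (cA tab 7) (PSm tab 7),
     altP (cA tab 7) (oCut tab 7)]
    [(6414139392, 917504000), (824633720832, 274877906944), (4398046511104, 4398046511104)] := by
  rw [← gA7_eq]; exact A7_c0

theorem certB7 : CovD 1
    [circ (cB tab 7) (PSm tab 7),
     altP (cB tab 7) (oCut tab 7)]
    [(6414139392, 917504000), (824633720832, 274877906944), (68719476736, 68719476736)] := by
  rw [← gB7_eq]; exact B7_c0

theorem certD7 : CovD 1
    [circ (cD tab 7) (PSm tab 7),
     comp (oD tab 7) ρ4 4]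
    [(6414139392, 917504000), (824633720832, 274877906944), (863610339328, 863610339328)] := by
  rw [← gD7_eq]; exact D7_c0

theorem certE7 : CovD 1
    [circ (cE tab 7) (PSm tab 7),
     comp (oE tab 7) ρ4 4]
    [(6414139392, 917504000), (824633720832, 274877906944), (863610339328, 863610339328)] := by
  rw [← gE7_eq]; exact E7_c0

theorem certA8 : CovD 1
    [circ (cA tab 8) (PSm tab 8),
     altP (cA tab 8) (oCut tab 8)]
    [(6414139392, 917504000), (824633720832, 274877906944), (4398046511104, 4398046511104)] := by
  rw [← gA8_eq]; exact A8_c0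

theorem certB8 : CovD 1
    [circ (cB tab 8) (PSm tab 8),
     altP (cB tab 8) (oCut tab 8)]
    [(6414139392, 917504000), (824633720832, 274877906944), (68719476736, 68719476736)] := by
  rw [← gB8_eq]; exact B8_c0

theorem certD8 : CovD 1
    [circ (cD tab 8) (PSm tab 8),
     comp (oD tab 8) ρ4 4]
    [(6414139392, 917504000), (824633720832, 274877906944), (863610339328, 863610339328)] := by
  rw [← gD8_eq]; exact D8_c0

theorem certE8 : CovD 1
    [circ (cE tab 8) (PSm tab 8),
     comp (oE tab 8) ρ4 4]
    [(6414139392, 917504000), (824633720832, 274877906944), (863610339328, 863610339328)] := by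
  rw [← gE8_eq]; exact E8_c0

theorem certA9 : CovD 1
    [circ (cA tab 9) (PSl tab 9),
     altP (cA tab 9) (oCut tab 9)]
    [(6414139392, 917504000), (824633720832, 274877906944), (4398046511104, 4398046511104)] := by
  rw [← gA9_eq]; exact A9_c0

theorem certB9 : CovD 1
    [circ (cB tab 9) (PSl tab 9),
     altP (cB tab 9) (oCut tab 9)]
    [(6414139392, 917504000), (824633720832, 274877906944), (68719476736, 68719476736)] := by
  rw [← gB9_eq]; exact B9_c0

theorem certD9 : CovD 1
    [circ (cD tab 9) (PSl tab 9),
     comp (oD tab 9) ρ4 4]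
    [(6414139392, 917504000), (824633720832, 274877906944), (863610339328, 863610339328)] := by
  rw [← gD9_eq]; exact D9_c0

theorem certE9 : CovD 1
    [circ (cE tab 9) (PSl tab 9),
     comp (oE tab 9) ρ4 4]
    [(6414139392, 917504000), (824633720832, 274877906944), (863610339328, 863610339328)] := by
  rw [← gE9_eq]; exact E9_c0

/-- the certificates of the piece -/
theorem certs : CertsS tab 10 979789414400 (6414139392, 917504000) (824633720832, 274877906944) (4398046511104, 4398046511104) (68719476736, 68719476736) (0, 0) (863610339328, 863610339328) (489894707200, 489894707200) where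
  A := by
    intro n h1 h2
    match n, h1, h2 with
    | 1, _, _ => exact certA1
    | 2, _, _ => exact certA2
    | 3, _, _ => exact certA3
    | 4, _, _ => exact certA4
    | 5, _, _ => exact certA5
    | 6, _, _ => exact certA6
    | 7, _, _ => exact certA7
    | 8, _, _ => exact certA8
    | 9, _, _ => exact certA9
    | 0, h, _ => exact absurd h (by decide)
    | n + 10, _, h => exact absurd h (by omega)
  B := by
    intro n h1 h2
    match n, h1, h2 with
    | 1, _, _ => exact certB1
    | 2, _, _ => exact certB2
    | 3, _, _ => exact certB3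
    | 4, _, _ => exact certB4
    | 5, _, _ => exact certB5
    | 6, _, _ => exact certB6
    | 7, _, _ => exact certB7
    | 8, _, _ => exact certB8
    | 9, _, _ => exact certB9
    | 0, h, _ => exact absurd h (by decide)
    | n + 10, _, h => exact absurd h (by omega)
  C := fun h => absurd h (by decide)
  D := by
    intro n h1 h2
    match n, h1, h2 with
    | 1, _, _ => exact certD1
    | 2, _, _ => exact certD2
    | 3, _, _ => exact certD3
    | 4, _, _ => exact certD4
    | 5, _, _ => exact certD5
    | 6, _, _ => exact certD6
    | 7, _, _ => exact certD7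
    | 8, _, _ => exact certD8
    | 9, _, _ => exact certD9
    | 0, h, _ => exact absurd h (by decide)
    | n + 10, _, h => exact absurd h (by omega)
  E := by
    intro n h1 h2
    match n, h1, h2 with
    | 1, _, _ => exact certE1
    | 2, _, _ => exact certE2
    | 3, _, _ => exact certE3
    | 4, _, _ => exact certE4
    | 5, _, _ => exact certE5
    | 6, _, _ => exact certE6
    | 7, _, _ => exact certE7
    | 8, _, _ => exact certE8
    | 9, _, _ => exact certE9
    | 0, h, _ => exact absurd h (by decide)
    | n + 10, _, h => exact absurd h (by omega)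
  Z := certZ
  T := certT
  S := certS

end Pool.Agent.helper14.NS.Q150c
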