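import Pool.Agent.helper14.NS.Q150c.PZ

/-!
Generated: certificates.
-/

namespace Pool.Agent.helper14.NS.Q150c

open Pool.Agent.helper31.IA (Z)
open Pool.Agent.helper31.IX (Op XOps runX Cov CovD cov_split covD_split)
open Pool.Agent.helper31.IC (TD)
open Pool.Agent.helper63.RG (reloc)
open Pool.Agent.helper63.NF hiding TD
open Pool.Agent.helper4.NS
open Pool.Agent.helper14.CF (xE covD_E)
open Pool.Agent.helper14.NR (share)

mutual
theorem Z_c0_t4 : CovD 1 gZ [(6414139392, 917504000), (618475290624, 68719476736), (122473676800, 122473676800)] :=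
  covD_E kZ_eq (.n 2 (.n 1 (.n 2 (.n 2 (.l 0) (.l 0)) (.n 2 (.l 0) (.l 0))) (.n 2 (.n 2 (.l 0) (.l 0)) (.n 2 (.l 0) (.l 0)))) (.n 2 (.n 0 (.n 2 (.l 0) (.l 0)) (.n 1 (.l 0) (.l 0))) (.n 2 (.l 0) (.l 0))))
    [(6414139392, 917504000), (618475290624, 68719476736), (122473676800, 122473676800)] rfl (by decide +kernel)
theorem Z_c0_t5 : CovD 1 gZ [(6414139392, 917504000), (618475290624, 68719476736), (367421030400, 122473676800)] :=
  covD_E kZ_eq (.n 2 (.n 2 (.n 2 (.l 0) (.l 0)) (.n 2 (.l 0) (.l 0))) (.n 2 (.n 2 (.l 0) (.l 0)) (.n 2 (.l 0) (.l 0))))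
    [(6414139392, 917504000), (618475290624, 68719476736), (367421030400, 122473676800)] rfl (by decide +kernel)
end

mutual
theorem Z_c0_t7 : CovD 1 gZ [(6414139392, 917504000), (618475290624, 68719476736), (612368384000, 122473676800)] :=
  covD_E kZ_eq (.n 2 (.n 2 (.n 1 (.l 0) (.l 0)) (.n 2 (.l 0) (.l 0))) (.n 2 (.n 2 (.l 0) (.l 0)) (.n 0 (.l 0) (.l 0))))
    [(6414139392, 917504000), (618475290624, 68719476736), (612368384000, 122473676800)] rfl (by decide +kernel)
theorem Z_c0_t9 : CovD 1 gZ [(6414139392, 917504000), (618475290624, 68719476736), (796078899200, 61236838400)] :=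
  covD_E kZ_eq (.n 2 (.n 2 (.l 0) (.l 0)) (.n 2 (.l 0) (.n 0 (.l 0) (.l 0))))
    [(6414139392, 917504000), (618475290624, 68719476736), (796078899200, 61236838400)] rfl (by decide +kernel)
end

mutual
theorem Z_c0_t10 : CovD 1 gZ [(6414139392, 917504000), (618475290624, 68719476736), (918552576000, 61236838400)] :=
  covD_E kZ_eq (.n 2 (.n 0 (.n 2 (.l 0) (.l 0)) (.n 2 (.l 0) (.l 0))) (.n 1 (.n 2 (.n 0 (.l 0) (.l 0)) (.n 2 (.l 0) (.n 0 (.l 0) (.l 0)))) (.n 2 (.l 0) (.n 2 (.l 0) (.n 0 (.l 0) (.l 0))))))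
    [(6414139392, 917504000), (618475290624, 68719476736), (918552576000, 61236838400)] rfl (by decide +kernel)
theorem Z_c0_t12 : CovD 1 gZ [(6414139392, 917504000), (755914244096, 68719476736), (244947353600, 244947353600)] :=
  covD_E kZ_eq (.n 2 (.n 2 (.n 2 (.n 2 (.l 0) (.l 0)) (.n 2 (.l 0) (.l 0))) (.n 2 (.n 1 (.l 0) (.l 0)) (.l 0))) (.n 2 (.n 2 (.l 0) (.l 0)) (.n 2 (.l 0) (.l 0))))
    [(6414139392, 917504000), (755914244096, 68719476736), (244947353600, 244947353600)] rfl (by decide +kernel)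
end

mutual
theorem Z_c0_t14 : CovD 1 gZ [(6414139392, 917504000), (755914244096, 68719476736), (612368384000, 122473676800)] :=
  covD_E kZ_eq (.n 2 (.n 2 (.l 0) (.l 0)) (.n 2 (.l 0) (.l 0)))
    [(6414139392, 917504000), (755914244096, 68719476736), (612368384000, 122473676800)] rfl (by decide +kernel)
theorem Z_c0_t15 : CovD 1 gZ [(6414139392, 917504000), (755914244096, 68719476736), (857315737600, 122473676800)] :=
  covD_E kZ_eq (.n 2 (.n 2 (.l 0) (.n 0 (.l 0) (.l 0))) (.n 2 (.n 2 (.l 0) (.l 0)) (.n 1 (.n 2 (.l 0) (.n 2 (.l 0) (.n 0 (.l 0) (.l 0)))) (.n 2 (.l 0) (.n 0 (.n 0 (.l 0) (.l 0)) (.l 0))))))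
    [(6414139392, 917504000), (755914244096, 68719476736), (857315737600, 122473676800)] rfl (by decide +kernel)
end

mutual
theorem Z_c0_t17 : CovD 1 gZ [(6414139392, 917504000), (962072674304, 137438953472), (244947353600, 244947353600)] :=
  covD_E kZ_eq (.n 2 (.n 2 (.n 2 (.n 2 (.l 0) (.l 0)) (.n 2 (.l 0) (.l 0))) (.n 1 (.n 2 (.l 0) (.l 0)) (.n 2 (.l 0) (.l 0)))) (.n 2 (.n 2 (.n 0 (.l 0) (.l 0)) (.l 0)) (.n 2 (.l 0) (.l 0))))
    [(6414139392, 917504000), (962072674304, 137438953472), (244947353600, 244947353600)] rfl (by decide +kernel)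
theorem Z_c0_t19 : CovD 1 gZ [(6414139392, 917504000), (962072674304, 137438953472), (612368384000, 122473676800)] :=
  covD_E kZ_eq (.n 2 (.n 2 (.l 0) (.l 0)) (.n 2 (.l 0) (.n 0 (.l 0) (.l 0))))
    [(6414139392, 917504000), (962072674304, 137438953472), (612368384000, 122473676800)] rfl (by decide +kernel)
end

mutual
theorem Z_c0_t20 : CovD 1 gZ [(6414139392, 917504000), (962072674304, 137438953472), (857315737600, 122473676800)] :=
  covD_E kZ_eq (.n 2 (.n 2 (.l 0) (.n 0 (.l 0) (.l 0))) (.n 2 (.n 2 (.l 0) (.n 0 (.l 0) (.l 0))) (.n 1 (.n 0 (.n 2 (.l 0) (.n 1 (.l 0) (.l 0))) (.n 2 (.l 0) (.n 1 (.l 0) (.l 0)))) (.n 2 (.l 0) (.n 0 (.l 0) (.l 0))))))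
    [(6414139392, 917504000), (962072674304, 137438953472), (857315737600, 122473676800)] rfl (by decide +kernel)
theorem T_c0 : CovD 1 gT [(6414139392, 917504000), (824633720832, 274877906944)] :=
  covD_E kT_eq (.n 0 (.n 1 (.n 1 (.n 1 (.l 0) (.l 0)) (.n 0 (.n 1 (.l 0) (.l 0)) (.l 0))) (.n 0 (.n 1 (.n 1 (.l 0) (.l 0)) (.l 0)) (.n 1 (.l 0) (.l 0)))) (.n 1 (.n 1 (.l 0) (.l 0)) (.l 0)))
    [(6414139392, 917504000), (824633720832, 274877906944)] rfl (by decide +kernel)
end

theorem S_c0 : CovD 0 gS [(6414139392, 917504000), (824633720832, 274877906944)] :=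
  covD_E kS_eq (.n 0 (.l 0) (.l 0))
    [(6414139392, 917504000), (824633720832, 274877906944)] rfl (by decide +kernel)

theorem Z_c0_t3 : CovD 1 gZ [(6414139392, 917504000), (618475290624, 68719476736), (244947353600, 244947353600)] :=
  covD_split 2 (by decide +kernel) Z_c0_t4 Z_c0_t5

theorem Z_c0_t8 : CovD 1 gZ [(6414139392, 917504000), (618475290624, 68719476736), (857315737600, 122473676800)] :=
  covD_split 2 (by decide +kernel) Z_c0_t9 Z_c0_t10

theorem Z_c0_t6 : CovD 1 gZ [(6414139392, 917504000), (618475290624, 68719476736), (734842060800, 244947353600)] :=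
  covD_split 2 (by decide +kernel) Z_c0_t7 Z_c0_t8

theorem Z_c0_t2 : CovD 1 gZ [(6414139392, 917504000), (618475290624, 68719476736), (489894707200, 489894707200)] :=
  covD_split 2 (by decide +kernel) Z_c0_t3 Z_c0_t6

theorem Z_c0_t13 : CovD 1 gZ [(6414139392, 917504000), (755914244096, 68719476736), (734842060800, 244947353600)] :=
  covD_split 2 (by decide +kernel) Z_c0_t14 Z_c0_t15

theorem Z_c0_t11 : CovD 1 gZ [(6414139392, 917504000), (755914244096, 68719476736), (489894707200, 489894707200)] :=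
  covD_split 2 (by decide +kernel) Z_c0_t12 Z_c0_t13

theorem Z_c0_t1 : CovD 1 gZ [(6414139392, 917504000), (687194767360, 137438953472), (489894707200, 489894707200)] :=
  covD_split 1 (by decide +kernel) Z_c0_t2 Z_c0_t11

theorem Z_c0_t18 : CovD 1 gZ [(6414139392, 917504000), (962072674304, 137438953472), (734842060800, 244947353600)] :=
  covD_split 2 (by decide +kernel) Z_c0_t19 Z_c0_t20

theorem Z_c0_t16 : CovD 1 gZ [(6414139392, 917504000), (962072674304, 137438953472), (489894707200, 489894707200)] :=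
  covD_split 2 (by decide +kernel) Z_c0_t17 Z_c0_t18

theorem Z_c0 : CovD 1 gZ [(6414139392, 917504000), (824633720832, 274877906944), (489894707200, 489894707200)] :=
  covD_split 1 (by decide +kernel) Z_c0_t1 Z_c0_t16

end Pool.Agent.helper14.NS.Q150c
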